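import Pool.Agent.Q169.ZD.Stm2

/-!
# The reflection construction as a complex (piece CELL of h854_pieces)
-/

set_option autoImplicit false

namespace Pool.Agent.Run7.h67.ZD

open Pool.Agent.Q169.ZD
open Pool.Agent.TH38.CX (AcyclicGComplex)

noncomputable section

variable {B : Type} {M : CoxeterMatrix B} {W : Type} [Group W] (cs : CoxeterSystem M W)
  {H : Type} [Group H] [MulAction H B] (Y : Mirrored H B)

theorem cell_iff (i : ℕ) (e e' : Y.E i) (w w' : W) :
    cell cs Y i e w = cell cs Y i e' w' ↔ e = e' ∧ w⁻¹ * w' ∈ par cs (Y.mir i e) := by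
  show ((⟨e, QuotientGroup.mk w⟩ : Σ e : Y.E i, W ⧸ par cs (Y.mir i e)) =
    ⟨e', QuotientGroup.mk w'⟩) ↔ _
  rw [Sigma.mk.injEq]
  constructor
  · rintro ⟨rfl, h⟩
    exact ⟨rfl, QuotientGroup.eq.1 (eq_of_heq h)⟩
  · rintro ⟨rfl, h⟩
    exact ⟨rfl, heq_of_eq (QuotientGroup.eq.2 h)⟩

theorem cell_surj (i : ℕ) (x : Cell cs Y i) : ∃ e w, x = cell cs Y i e w := by
  obtain ⟨e, q⟩ := x
  induction q using QuotientGroup.induction_on with
  | H w => exact ⟨e, w, rfl⟩

theorem out_mem (T : Set B) (w : W) :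
    ((QuotientGroup.mk w : W ⧸ par cs T).out)⁻¹ * w ∈ par cs T := by
  rw [← QuotientGroup.eq]
  exact Quotient.out_eq _

theorem bdCell_cell (i : ℕ) (e : Y.E (i + 1)) (w : W) :
    bdCell cs Y i (cell cs Y (i + 1) e w) = (Y.bd i e).mapDomain (fun f => cell cs Y i f w) := by
  unfold bdCell
  refine Finsupp.mapDomain_congr fun f hf => ?_
  rw [cell_iff]
  refine ⟨rfl, ?_⟩
  have h1 := out_mem cs (Y.mir (i + 1) e) w
  refine Subgroup.closure_mono (Set.image_mono (Y.mir_face i e f ?_)) h1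
  exact Finsupp.mem_support_iff.1 hf

/-- the boundary map as a homomorphism -/
def bdHom (i : ℕ) : (Cell cs Y (i + 1) →₀ ℤ) →+ (Cell cs Y i →₀ ℤ) where
  toFun := bdU cs Y i
  map_zero' := Finsupp.sum_zero_index
  map_add' _ _ := Finsupp.sum_add_index' (fun _ => zero_smul _ _) (fun _ _ _ => add_smul _ _ _)

theorem bdHom_single (i : ℕ) (x : Cell cs Y (i + 1)) (n : ℤ) :
    bdHom cs Y i (Finsupp.single x n) = n • bdCell cs Y i x := by
  show (Finsupp.single x n).sum (fun x n => n • bdCell cs Y i x) = _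
  exact Finsupp.sum_single_index (zero_smul _ _)

section action

variable (φ : H →* MulAut W) (hφ : ∀ h b, φ h (cs.simple b) = cs.simple (h • b))

/-- the action of the semidirect product on the cells -/
def actC (i : ℕ) (g : W ⋊[φ] H) (x : Cell cs Y i) : Cell cs Y i :=
  cell cs Y i (g.right • x.1) (g.left * φ g.right x.2.out)

include hφ

theorem phi_mem (i : ℕ) (h : H) (e : Y.E i) (w : W) (hw : w ∈ par cs (Y.mir i e)) :
    φ h w ∈ par cs (Y.mir i (h • e)) := by
  have h1 : par cs (Y.mir i (h • e)) = (par cs (Y.mir i e)).map (φ h).toMonoidHom := by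
    unfold par
    rw [MonoidHom.map_closure, Y.mir_smul, Set.image_image, Set.image_image]
    congr 1
    refine Set.image_congr fun b _ => ?_
    exact (hφ h b).symm
  rw [h1]
  exact ⟨w, hw, rfl⟩

theorem actC_cell (i : ℕ) (g : W ⋊[φ] H) (e : Y.E i) (w : W) :
    actC cs Y φ i g (cell cs Y i e w) = cell cs Y i (g.right • e) (g.left * φ g.right w) := by
  unfold actC
  rw [cell_iff]
  refine ⟨rfl, ?_⟩
  have h1 := phi_mem cs Y φ hφ i g.right e _ (out_mem cs (Y.mir i e) w)
  rw [map_mul, map_inv] at h1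
  rw [mul_inv_rev, mul_assoc, inv_mul_cancel_left]
  exact h1

/-- the action as an instance -/
@[instance_reducible] def actI (i : ℕ) : MulAction (W ⋊[φ] H) (Cell cs Y i) where
  smul := actC cs Y φ i
  one_smul x := by
    obtain ⟨e, w, rfl⟩ := cell_surj cs Y i x
    show actC cs Y φ i 1 _ = _
    rw [actC_cell cs Y φ hφ]
    simp
  mul_smul g g' x := by
    obtain ⟨e, w, rfl⟩ := cell_surj cs Y i x
    show actC cs Y φ i (g * g') _ = actC cs Y φ i g (actC cs Y φ i g' _)
    rw [actC_cell cs Y φ hφ, actC_cell cs Y φ hφ, actC_cell cs Y φ hφ]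
    simp only [SemidirectProduct.mul_left, SemidirectProduct.mul_right, map_mul, mul_smul,
      MulAut.mul_apply, mul_assoc]

theorem bdCell_act (i : ℕ) (g : W ⋊[φ] H) (x : Cell cs Y (i + 1)) :
    bdCell cs Y i (actC cs Y φ (i + 1) g x) =
      (bdCell cs Y i x).mapDomain (fun y => actC cs Y φ i g y) := by
  obtain ⟨e, w, rfl⟩ := cell_surj cs Y _ x
  rw [actC_cell cs Y φ hφ, bdCell_cell, bdCell_cell, Y.bd_smul, ← Finsupp.mapDomain_comp,
    ← Finsupp.mapDomain_comp]
  congr 1
  funext f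
  exact (actC_cell cs Y φ hφ i g f w).symm

theorem bdHom_act (i : ℕ) (g : W ⋊[φ] H) (x : Cell cs Y (i + 1) →₀ ℤ) :
    bdHom cs Y i (x.mapDomain (fun e => actC cs Y φ (i + 1) g e)) =
      (bdHom cs Y i x).mapDomain (fun e => actC cs Y φ i g e) := by
  have h : (bdHom cs Y i).comp
      (Finsupp.mapDomain.addMonoidHom (fun e => actC cs Y φ (i + 1) g e)) =
      (Finsupp.mapDomain.addMonoidHom (fun e => actC cs Y φ i g e)).comp (bdHom cs Y i) := by
    refine Finsupp.addHom_ext fun e n => ?_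
    simp only [AddMonoidHom.comp_apply, Finsupp.mapDomain.addMonoidHom_apply,
      Finsupp.mapDomain_single, bdHom_single]
    rw [bdCell_act cs Y φ hφ, Finsupp.mapDomain_smul]
  exact DFunLike.congr_fun h x

end action

end

theorem t_CELL : S_CELL := by
  intro B M W _ cs H _ _ φ hφ Y hY
  refine ⟨{
    E := Cell cs Y
    act := actI cs Y φ hφ
    bd := bdHom cs Y
    bd_smul := fun i g x => bdHom_act cs Y φ hφ i g x
    len := Y.len
    isEmpty := fun i hi => ⟨fun x => (Y.isEmpty i hi).false x.1⟩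
    nonempty := ?_
    exact_zero := hY.exact_zero
    exact_succ := hY.exact_succ }, fun i e w => cell cs Y i e w, fun i x => cell_surj cs Y i x,
    fun i e e' w w' => cell_iff cs Y i e e' w w', fun i g e w => actC_cell cs Y φ hφ i g e w, ?_⟩
  · obtain ⟨e⟩ := hY.nonempty
    exact ⟨cell cs Y 0 e 1⟩
  · intro i e w
    show bdHom cs Y i (Finsupp.single (cell cs Y (i + 1) e w) 1) = _
    rw [bdHom_single, one_smul]
    exact bdCell_cell cs Y i e w

end Pool.Agent.Run7.h67.ZD
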