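import Pool.Agent.Q169.ZD.Stm2
import Pool.Agent.Q27.Cox.Par

/-!
# Extended Coxeter groups (piece EXT of h854_pieces)
-/

set_option autoImplicit false

namespace Pool.Agent.Run7.h67.ZD

open Pool.Agent.Q169.ZD

section

variable {B : Type} {M : CoxeterMatrix B} {W : Type} [Group W] (cs : CoxeterSystem M W)
  {H : Type} [Group H] [MulAction H B] (φ : H →* MulAut W)
  (hφ : ∀ h b, φ h (cs.simple b) = cs.simple (h • b))

include hφ

theorem phi_word (h : H) (ω : List B) :
    φ h (cs.wordProd ω) = cs.wordProd (ω.map fun b => h • b) := by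
  induction ω with
  | nil => simp
  | cons i ω ih => rw [List.map_cons, cs.wordProd_cons, cs.wordProd_cons, map_mul, ih, hφ]

theorem len_phi_le (h : H) (w : W) : cs.length (φ h w) ≤ cs.length w := by
  obtain ⟨ω, hω, rfl⟩ := cs.exists_isReduced w
  rw [phi_word cs φ hφ]
  refine (cs.length_wordProd_le _).trans ?_
  rw [List.length_map, hω.eq]

theorem len_phi (h : H) (w : W) : cs.length (φ h w) = cs.length w := by
  refine le_antisymm (len_phi_le cs φ hφ h w) ?_
  have h1 := len_phi_le cs φ hφ h⁻¹ (φ h w)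
  rwa [← MulAut.mul_apply, ← map_mul, inv_mul_cancel, map_one, MulAut.one_apply] at h1

end

theorem closure_eq {B : Type} {M : CoxeterMatrix B} {W : Type} [Group W] (cs : CoxeterSystem M W)
    {H : Type} [Group H] (φ : H →* MulAut W) (T : Set (W ⋊[φ] H))
    (hT : T ⊆ {s | ∃ b : B, s = ⟨cs.simple b, 1⟩}) :
    Subgroup.closure T =
      (Q27.Cox.P cs {b | (⟨cs.simple b, 1⟩ : W ⋊[φ] H) ∈ T}).map SemidirectProduct.inl := by
  unfold Q27.Cox.P
  rw [MonoidHom.map_closure]
  congr 1
  ext s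
  constructor
  · intro hs
    obtain ⟨b, rfl⟩ := hT hs
    exact ⟨cs.simple b, ⟨b, hs, rfl⟩, rfl⟩
  · rintro ⟨w, ⟨b, hb, rfl⟩, rfl⟩
    exact hb

theorem t_EXT : S_EXT := by
  intro B M W _ cs H _ _ φ hφ
  refine ⟨{
    S := {s | ∃ b : B, s = ⟨cs.simple b, 1⟩}
    len := fun g => cs.length g.left
    sq := ?_
    len_one := by simp
    len_inv := ?_
    len_mul := ?_
    len_smul := ?_
    len_muls := ?_
    conj := ?_
    desc := ?_
    lift := ?_
    par_decomp := ?_
    par_len := ?_
    par_desc := ?_ }, rfl, fun g => rfl⟩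
  · rintro _ ⟨b, rfl⟩
    ext
    · simp [SemidirectProduct.mul_left]
    · simp
  · intro g
    rw [SemidirectProduct.inv_left, len_phi cs φ hφ, cs.length_inv]
  · intro g h
    rw [SemidirectProduct.mul_left]
    refine (cs.length_mul_le _ _).trans ?_
    rw [len_phi cs φ hφ]
  · rintro _ ⟨b, rfl⟩ g
    have : ((⟨cs.simple b, 1⟩ : W ⋊[φ] H) * g).left = cs.simple b * g.left := by
      simp [SemidirectProduct.mul_left]
    rw [this]
    exact cs.length_simple_mul g.left b
  · rintro _ ⟨b, rfl⟩ g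
    have : (g * (⟨cs.simple b, 1⟩ : W ⋊[φ] H)).left = g.left * cs.simple (g.right • b) := by
      simp [SemidirectProduct.mul_left, hφ]
    rw [this]
    exact cs.length_mul_simple g.left _
  · rintro h hh _ ⟨b, rfl⟩
    rw [cs.length_eq_zero_iff] at hh
    refine ⟨h.right • b, ?_⟩
    ext
    · simp [SemidirectProduct.mul_left, SemidirectProduct.inv_left, hφ, hh]
    · simp
  · intro g hg
    have hg1 : g.left ≠ 1 := fun h => hg (by simp [h])
    obtain ⟨i, hi⟩ := cs.exists_rightDescent_of_ne_one hg1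
    refine ⟨_, ⟨g.right⁻¹ • i, rfl⟩, ?_⟩
    have : (g * (⟨cs.simple (g.right⁻¹ • i), 1⟩ : W ⋊[φ] H)).left = g.left * cs.simple i := by
      simp [SemidirectProduct.mul_left, hφ]
    rw [this]
    exact hi
  · rintro _ ⟨b, rfl⟩ _ ⟨c, rfl⟩ g h1 h2 h3
    have e1 : ((⟨cs.simple c, 1⟩ : W ⋊[φ] H) * g).left = cs.simple c * g.left := by
      simp [SemidirectProduct.mul_left]
    have e2 : (g * (⟨cs.simple b, 1⟩ : W ⋊[φ] H)).left = g.left * cs.simple (g.right • b) := by
      simp [SemidirectProduct.mul_left, hφ]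
    have e3 : ((⟨cs.simple c, 1⟩ : W ⋊[φ] H) * g * (⟨cs.simple b, 1⟩ : W ⋊[φ] H)).left =
        cs.simple c * g.left * cs.simple (g.right • b) := by
      simp [SemidirectProduct.mul_left, hφ]
    rw [e1] at h1 h3
    rw [e2] at h2
    rw [e3] at h3
    rcases Q27.Cox.deodhar_up (cs := cs) (J := {g.right • b}) (x := g.left) (by
      intro j hj
      rw [Set.mem_singleton_iff] at hj
      rw [hj]
      exact h2) (i := c) h1 with h4 | ⟨j, hj, h4⟩
    · have := h4 (g.right • b) rfl
      omega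
    · rw [Set.mem_singleton_iff] at hj
      ext
      · rw [e1, e2, h4, hj]
      · simp
  · intro T hT g
    obtain ⟨y, hy, x, hx, he, _⟩ :=
      Q27.Cox.exists_decomp_L (cs := cs) {b | (⟨cs.simple b, 1⟩ : W ⋊[φ] H) ∈ T} g.left
    refine ⟨SemidirectProduct.inl y, ?_, ⟨x, g.right⟩, ?_, ?_⟩
    · rw [closure_eq cs φ T hT]
      exact ⟨y, hy, rfl⟩
    · intro t ht
      obtain ⟨b, rfl⟩ := hT ht
      have := hx b ht
      simpa [SemidirectProduct.mul_left] using this
    · ext
      · simp [SemidirectProduct.mul_left, he]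
      · simp
  · intro T hT u hu m hm
    rw [closure_eq cs φ T hT] at hu
    obtain ⟨y, hy, rfl⟩ := hu
    have hx : m.left ∈ Q27.Cox.L cs {b | (⟨cs.simple b, 1⟩ : W ⋊[φ] H) ∈ T} := by
      intro j hj
      have := hm _ hj
      simpa [SemidirectProduct.mul_left] using this
    have := Q27.Cox.length_mul_L hx hy
    simpa [SemidirectProduct.mul_left] using this
  · intro T hT u hu hu1
    rw [closure_eq cs φ T hT] at hu
    obtain ⟨y, hy, rfl⟩ := hu
    have hy1 : y ≠ 1 := fun h => hu1 (by rw [h, map_one])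
    obtain ⟨j, hj⟩ := cs.exists_leftDescent_of_ne_one hy1
    have hjT := Q27.Cox.descent_mem hy hj
    refine ⟨_, hjT, ?_⟩
    have hj' : cs.length (cs.simple j * y) < cs.length y := hj
    simpa [SemidirectProduct.mul_left] using hj'

end Pool.Agent.Run7.h67.ZD
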